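import Pool.Agent.H7.HD.Targets9

/-!
# MP_e37c09_lc: row CD of the board `hd6_modules`: definability of the class of `h`
-/

open Ordinal Cardinal Order Set
open scoped ZFSet

universe u

namespace Pool.Agent.H20.HD9.CD

open _root_.HD

/-! ## Mixed predicates of sets and ordinals -/

/-- mixed predicates of sets and ordinals, definable from ordinals -/
def DM (P : (ℕ → ZFSet.{u}) → (ℕ → Ordinal.{u}) → Prop) : Prop :=
  ∃ Q, DZ Q ∧ ∀ s w, P s w ↔ Q (mz s w)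

variable {P P' : (ℕ → ZFSet.{u}) → (ℕ → Ordinal.{u}) → Prop}

theorem DM.congr (h : DM P) (h' : ∀ s w, P' s w ↔ P s w) : DM P' := by
  obtain ⟨Q, hQ, h⟩ := h
  exact ⟨Q, hQ, fun s w => (h' s w).trans (h s w)⟩

theorem DM.not (h : DM P) : DM fun s w => ¬ P s w := by
  obtain ⟨Q, hQ, h⟩ := h
  exact ⟨_, hQ.not, fun s w => not_congr (h s w)⟩

theorem DM.and (h : DM P) (h' : DM P') : DM fun s w => P s w ∧ P' s w := by
  obtain ⟨Q, hQ, h⟩ := h
  obtain ⟨Q', hQ', h'⟩ := h'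
  exact ⟨_, hQ.and hQ', fun s w => and_congr (h s w) (h' s w)⟩

theorem DM.or (h : DM P) (h' : DM P') : DM fun s w => P s w ∨ P' s w :=
  (h.not.and h'.not).not.congr fun s w => by tauto

theorem DM.imp (h : DM P) (h' : DM P') : DM fun s w => P s w → P' s w :=
  (h.and h'.not).not.congr fun s w => by tauto

theorem DM.iff (h : DM P) (h' : DM P') : DM fun s w => P s w ↔ P' s w :=
  ((h.imp h').and (h'.imp h)).congr fun s w => by tauto

theorem DM.exS {R : ZFSet.{u} → (ℕ → ZFSet.{u}) → (ℕ → Ordinal.{u}) → Prop}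
    (h : DM fun s w => R (s 0) (fun n => s (n + 1)) w) : DM fun s w => ∃ x, R x s w := by
  obtain ⟨Q, hQ, h⟩ := h
  refine ⟨fun v => ∃ x, Q (fun n => cons x v (rnq n)),
    DZ.ex (R := fun x v => Q (fun n => cons x v (rnq n))) ?_,
    fun s w => exists_congr fun x => ?_⟩
  · refine (hQ.ren rnq).congr fun v => ?_
    rw [cons_eta]
  · have := h (cons x s) w
    rw [← cons_mz] at this
    exact this

theorem DM.allS {R : ZFSet.{u} → (ℕ → ZFSet.{u}) → (ℕ → Ordinal.{u}) → Prop}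
    (h : DM fun s w => R (s 0) (fun n => s (n + 1)) w) : DM fun s w => ∀ x, R x s w :=
  (DM.exS (R := fun x s w => ¬ R x s w) h.not).not.congr fun s w => by push Not; rfl

/-- renaming under a quantifier over ordinals -/
def rno (n : ℕ) : ℕ := if n % 2 = 0 then n + 1 else if n = 1 then 0 else n - 1

theorem mz_rno (a : Ordinal.{u}) (s : ℕ → ZFSet.{u}) (w : ℕ → Ordinal.{u}) :
    (fun n => cons a.toZFSet (mz s w) (rno n)) = mz s (cns a w) := by
  funext n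
  rcases Nat.even_or_odd' n with ⟨k, rfl | rfl⟩
  · have : rno (2 * k) = 2 * k + 1 := by
      unfold rno
      rw [if_pos (by omega)]
    rw [this, cons_succ, mz_even, mz_even]
  · rcases k with _ | k
    · have : rno (2 * 0 + 1) = 0 := by
        unfold rno
        rw [if_neg (by omega), if_pos (by omega)]
      rw [this, mz_odd]
      rfl
    · have : rno (2 * (k + 1) + 1) = (2 * k + 1) + 1 := by
        unfold rno
        rw [if_neg (by omega), if_neg (by omega)]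
        omega
      rw [this, cons_succ, mz_odd, mz_odd]
      rfl

theorem DM.exO {R : Ordinal.{u} → (ℕ → ZFSet.{u}) → (ℕ → Ordinal.{u}) → Prop}
    (h : DM fun s w => R (w 0) s (fun n => w (n + 1))) : DM fun s w => ∃ x, R x s w := by
  obtain ⟨Q, hQ, h⟩ := h
  refine ⟨fun v => ∃ x : ZFSet.{u}, x.IsOrdinal ∧ Q (fun n => cons x v (rno n)),
    DZ.ex (R := fun x v => x.IsOrdinal ∧ Q (fun n => cons x v (rno n))) ((DZ.ord 0).and ?_),
    fun s w => ?_⟩
  · refine (hQ.ren rno).congr fun v => ?_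
    rw [cons_eta]
  · constructor
    · rintro ⟨a, ha⟩
      refine ⟨a.toZFSet, ZFSet.isOrdinal_toZFSet a, ?_⟩
      rw [mz_rno]
      exact (h s (cns a w)).1 ha
    · rintro ⟨x, hx, hq⟩
      refine ⟨x.rank, ?_⟩
      have h1 : x.rank.toZFSet = x := hx.toZFSet_rank_eq
      rw [← h1, mz_rno] at hq
      exact (h s (cns x.rank w)).2 hq

theorem DM.allO {R : Ordinal.{u} → (ℕ → ZFSet.{u}) → (ℕ → Ordinal.{u}) → Prop}
    (h : DM fun s w => R (w 0) s (fun n => w (n + 1))) : DM fun s w => ∀ x, R x s w :=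
  (DM.exO (R := fun x s w => ¬ R x s w) h.not).not.congr fun s w => by push Not; rfl

theorem DM.ren (h : DM P) (σ τ : ℕ → ℕ) :
    DM fun s w => P (fun n => s (σ n)) (fun n => w (τ n)) := by
  obtain ⟨Q, hQ, h⟩ := h
  refine ⟨_, hQ.ren (fun n => if n % 2 = 0 then 2 * σ (n / 2) else 2 * τ (n / 2) + 1),
    fun s w => ?_⟩
  beta_reduce
  rw [h]
  have : mz (fun n => s (σ n)) (fun n => w (τ n)) = fun n => mz s w
      (if n % 2 = 0 then 2 * σ (n / 2) else 2 * τ (n / 2) + 1) := by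
    funext n
    rcases Nat.even_or_odd' n with ⟨k, rfl | rfl⟩
    · rw [mz_even]
      have e1 : 2 * k % 2 = 0 := by omega
      have e2 : 2 * k / 2 = k := by omega
      simp only [e1, e2, if_true, mz_even]
    · rw [mz_odd]
      have e1 : (2 * k + 1) % 2 = 1 := by omega
      have e2 : (2 * k + 1) / 2 = k := by omega
      simp only [e1, e2, one_ne_zero, if_false, mz_odd]
  rw [this]

theorem DM.of_do {A : (ℕ → Ordinal.{u}) → Prop} (h : DO A) : DM fun _ w => A w := by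
  obtain ⟨Q, hQ, h⟩ := h
  refine ⟨_, hQ.ren (fun n => 2 * n + 1), fun s w => ?_⟩
  beta_reduce
  rw [h]
  have : ov w = fun n => mz s w (2 * n + 1) := by
    funext n
    rw [mz_odd]
    rfl
  rw [this]

theorem DM.do {A : (ℕ → Ordinal.{u}) → Prop} (h : DM fun _ w => A w) : DO A := by
  obtain ⟨Q, hQ, h⟩ := h
  refine ⟨_, hQ.ren (fun n => n / 2), fun w => ?_⟩
  refine (h (ov w) w).trans ?_
  have : mz (ov w) w = fun n => ov w (n / 2) := by
    funext n
    unfold mz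
    split_ifs
    · rfl
    · rfl
  rw [this]

theorem DM.pmem (i a b : ℕ) :
    DM.{u} fun s w => ZFSet.pair (w a).toZFSet (w b).toZFSet ∈ s i :=
  ⟨fun v => ZFSet.pair (v (2 * a + 1)) (v (2 * b + 1)) ∈ v (2 * i), (loc_pmem _ _ _).dz,
    fun s w => by beta_reduce; rw [mz_odd, mz_odd, mz_even]⟩

theorem DM.smem (i a : ℕ) : DM.{u} fun s w => (w a).toZFSet ∈ s i :=
  ⟨fun v => v (2 * a + 1) ∈ v (2 * i), DZ.mem _ _,
    fun s w => by beta_reduce; rw [mz_odd, mz_even]⟩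

/-- positivity -/
theorem DM.pos {X : Ordinal.{u} → (ℕ → ZFSet.{u}) → (ℕ → Ordinal.{u}) → Prop}
    (hX : DM fun s w => X (w 0) s (fun n => w (n + 1))) (i j : ℕ) :
    DM fun s w => Pos (w i) (w j) {a | X a s w} := by
  have h1 : Loc.{u} fun v => (v (2 * i + 1)).IsOrdinal ∧ (v (2 * j + 1)).IsOrdinal ∧
      Pos (v (2 * i + 1)).rank (v (2 * j + 1)).rank {b | b.toZFSet ∈ v 0} :=
    loc_pos All.la (P := fun b v => b ∈ v 0) (2 * i + 1) (2 * j + 1) (Loc.mem 0 1)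
  have h2 : DM.{u} fun s w => Pos (w i) (w j) {b | b.toZFSet ∈ s 0} := by
    refine ⟨_, h1.dz, fun s w => ?_⟩
    have e0 : mz s w 0 = s 0 := mz_even s w 0
    rw [mz_odd, mz_odd, rank_toZFSet, rank_toZFSet, e0]
    exact ⟨fun h => ⟨ZFSet.isOrdinal_toZFSet _, ZFSet.isOrdinal_toZFSet _, h⟩, fun h => h.2.2⟩
  refine (DM.exS (R := fun t s w => (∀ a, a < w j → (a.toZFSet ∈ t ↔ X a s w)) ∧
    Pos (w i) (w j) {b | b.toZFSet ∈ t}) (DM.and (DM.allO (R := fun a s w => a < w j →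
      (a.toZFSet ∈ s 0 ↔ X a (fun n => s (n + 1)) w)) ((DM.of_do (DO.lt 0 (j + 1))).imp
        ((DM.smem 0 0).iff (hX.ren (fun n => n + 1) (fun n => n))))) h2)).congr fun s w => ?_
  constructor
  · intro h
    refine ⟨os (w j) {a | X a s w}, fun a ha => ?_, (Pos.congr fun b hb => ?_).1 h⟩
    · rw [ord_mem_os]
      exact ⟨fun h => h.2, fun h => ⟨ha, h⟩⟩
    · show _ ↔ b.toZFSet ∈ os (w j) _
      rw [ord_mem_os]
      exact ⟨fun h => ⟨hb, h⟩, fun h => h.2⟩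
  · rintro ⟨t, h3, h4⟩
    exact (Pos.congr fun b hb => (h3 b hb)).1 h4

/-- positivity with a fixed cofinality -/
theorem DM.posc {X : Ordinal.{u} → (ℕ → ZFSet.{u}) → (ℕ → Ordinal.{u}) → Prop}
    (hX : DM fun s w => X (w 0) s (fun n => w (n + 1))) (μ : Ordinal.{u}) (j : ℕ) :
    DM fun s w => Pos μ (w j) {a | X a s w} := by
  refine (DM.exO (R := fun m s w => m = μ ∧ Pos m (w j) {a | X a s w})
    ((DM.of_do (DO.eqc 0 μ)).and ?_)).congr fun s w => by simp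
  refine DM.pos (X := fun a s w => X a s (fun n => w (n + 1))) ?_ 0 (j + 1)
  exact hX.ren (fun n => n) (fun n => if n = 0 then 0 else n + 1)

/-- functions -/
def DF (f : (ℕ → ZFSet.{u}) → (ℕ → Ordinal.{u}) → Ordinal.{u}) : Prop :=
  DM fun s w => w 0 = f s (fun n => w (n + 1))

theorem DM.subst {f : (ℕ → ZFSet.{u}) → (ℕ → Ordinal.{u}) → Ordinal.{u}}
    {R : Ordinal.{u} → (ℕ → ZFSet.{u}) → (ℕ → Ordinal.{u}) → Prop} (hf : DF f)
    (hR : DM fun s w => R (w 0) s (fun n => w (n + 1))) : DM fun s w => R (f s w) s w :=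
  (DM.exO (R := fun x s w => x = f s w ∧ R x s w) (DM.and hf hR)).congr fun s w => by simp

theorem DM.lt {f g : (ℕ → ZFSet.{u}) → (ℕ → Ordinal.{u}) → Ordinal.{u}} (hf : DF f)
    (hg : DF g) : DM fun s w => f s w < g s w := by
  refine DM.subst (R := fun x s w => x < g s w) hf ?_
  refine DM.subst (f := fun s w => g s (fun n => w (n + 1))) (R := fun y s w => w 0 < y) ?_
    (DM.of_do (DO.lt 1 0))
  exact hg.ren (fun n => n) (fun n => if n = 0 then 0 else n + 1)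

theorem DM.le {f g : (ℕ → ZFSet.{u}) → (ℕ → Ordinal.{u}) → Ordinal.{u}} (hf : DF f)
    (hg : DF g) : DM fun s w => f s w ≤ g s w :=
  (DM.lt hg hf).not.congr fun s w => by simp

theorem DF.sInf {X : Ordinal.{u} → (ℕ → ZFSet.{u}) → (ℕ → Ordinal.{u}) → Prop}
    (hX : DM fun s w => X (w 0) s (fun n => w (n + 1))) :
    DF fun s w => sInf {b | X b s w} := by
  have hX' : DM fun s w => X (w 0) s (fun n => w (n + 2)) :=
    hX.ren (fun n => n) (fun n => if n = 0 then 0 else n + 1)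
  refine ((hX.and (DM.allO (R := fun b s w => b < w 0 → ¬ X b s (fun n => w (n + 1)))
    ((DM.of_do (DO.lt 0 1)).imp hX'.not))).or
    ((DM.allO (R := fun b s w => ¬ X b s (fun n => w (n + 1))) hX'.not).and
      (DM.of_do (DO.eqc 0 0)))).congr fun s w => ?_
  beta_reduce
  by_cases h : {b | X b s fun n => w (n + 1)}.Nonempty
  · constructor
    · intro e
      refine Or.inl ⟨?_, fun b hb hXb => ?_⟩
      · have := csInf_mem h
        rw [← e] at this
        exact this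
      · have := csInf_le' (s := {b | X b s fun n => w (n + 1)}) hXb
        rw [← e] at this
        exact absurd hb (not_lt.2 this)
    · rintro (⟨h1, h2⟩ | ⟨h1, -⟩)
      · apply le_antisymm
        · exact le_csInf h fun b hb => not_lt.1 fun hlt => h2 b hlt hb
        · exact csInf_le' h1
      · obtain ⟨b, hb⟩ := h
        exact absurd hb (h1 b)
  · rw [Set.not_nonempty_iff_eq_empty] at h
    have h' : ∀ b, ¬ X b s fun n => w (n + 1) := fun b hb => by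
      have : b ∈ {b | X b s fun n => w (n + 1)} := hb
      rw [h] at this
      exact this
    rw [h, Ordinal.sInf_empty]
    constructor
    · intro e
      exact Or.inr ⟨h', e⟩
    · rintro (⟨h1, -⟩ | ⟨-, h2⟩)
      · exact absurd h1 (h' _)
      · exact h2

/-! ## Functions as sets -/

/-- the function given by the set `z` -/
noncomputable def hz (z : ZFSet.{u}) (a : Ordinal.{u}) : Ordinal.{u} :=
  sInf {b | ZFSet.pair a.toZFSet b.toZFSet ∈ z}

theorem df_hz (i j : ℕ) : DF.{u} fun s w => hz (s i) (w j) :=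
  DF.sInf (X := fun b s w => ZFSet.pair (w j).toZFSet b.toZFSet ∈ s i) (DM.pmem i (j + 1) 0)

theorem df_af {en : Ordinal.{u} → ZFSet.{u}} (hen : EN en) (i j : ℕ) :
    DF.{u} fun _ w => af en (w i) (w j) :=
  DF.sInf (X := fun b _ w => b ∈ E2 en (w i) (w j))
    (DM.of_do ((All.ea en hen).2.1.ren
      (fun n => if n = 0 then 0 else if n = 1 then j + 1 else i + 1)))

theorem exists_hz (ρ : Ordinal.{u}) (h : Ordinal.{u} → Ordinal.{u}) :
    ∃ z, ∀ a < ρ, hz z a = h a := by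
  obtain ⟨lam, hlam⟩ : BddAbove (h '' Iio ρ) := Ordinal.bddAbove_of_small
  refine ⟨rs ρ (Order.succ lam) (fun a b => b = h a), fun a ha => ?_⟩
  have : {b : Ordinal.{u} | ZFSet.pair a.toZFSet b.toZFSet ∈
      rs ρ (Order.succ lam) (fun a b => b = h a)} = {h a} := by
    ext b
    show ZFSet.pair a.toZFSet b.toZFSet ∈ rs ρ (Order.succ lam) (fun a b => b = h a) ↔ b = h a
    rw [pair_mem_rs]
    constructor
    · exact fun h => h.2.2
    · rintro rfl
      exact ⟨ha, Order.lt_succ_of_le (hlam ⟨a, ha, rfl⟩), rfl⟩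
  unfold hz
  rw [this, csInf_singleton]

/-- the three conditions of `LU` at the level of sets -/
def LUz (en : Ordinal.{u} → ZFSet.{u}) (μ ρ : Ordinal.{u}) (S : Set Ordinal.{u})
    (z : ZFSet.{u}) : Prop :=
  (∀ g g', ¬ (Pos μ ρ {a | a ∈ S ∧ af en g a < af en g' a} ∧
    Pos μ ρ {a | a ∈ S ∧ af en g' a ≤ af en g a})) ∧
  (∃ f, ∀ a, a < ρ → hz z a ≤ af en f a) ∧
  ∀ t κ : ZFSet.{u}, Pos μ ρ {a | a.toZFSet ∈ t} →
    (∀ a : Ordinal.{u}, a.toZFSet ∈ t → a < ρ → (a ∈ S ∧ hz κ a < hz z a)) →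
      ∃ e, (¬ Pos μ ρ {a | a ∈ S ∧ hz z a ≤ af en e a}) ∧
        Pos μ ρ {a | a.toZFSet ∈ t ∧ hz κ a ≤ af en e a}

theorem LUz_iff {en : Ordinal.{u} → ZFSet.{u}} {μ ρ : Ordinal.{u}} {S : Set Ordinal.{u}}
    {z : ZFSet.{u}} {h : Ordinal.{u} → Ordinal.{u}} (hh : ∀ a < ρ, hz z a = h a) :
    LU en μ ρ S h ↔ LUz en μ ρ S z := by
  have hL : ∀ e, Pos μ ρ {a | a ∈ S ∧ hz z a ≤ af en e a} ↔
      Pos μ ρ {a | a ∈ S ∧ h a ≤ af en e a} := by
    intro e
    refine Pos.congr fun b hb => ?_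
    show (b ∈ S ∧ hz z b ≤ _) ↔ (b ∈ S ∧ h b ≤ _)
    rw [hh b hb]
  constructor
  · rintro ⟨h1, ⟨f, h2⟩, h3⟩
    refine ⟨h1, ⟨f, fun a ha => by rw [hh a ha]; exact h2 a ha⟩, fun t κ ht hκ => ?_⟩
    obtain ⟨e, he1, he2⟩ := h3 {a | a.toZFSet ∈ t} (hz κ) ht (fun a ha hlt => by
      have := hκ a ha hlt
      rw [hh a hlt] at this
      exact this)
    exact ⟨e, fun hp => he1 ((hL e).1 hp), he2⟩
  · rintro ⟨h1, ⟨f, h2⟩, h3⟩
    refine ⟨h1, ⟨f, fun a ha => by rw [← hh a ha]; exact h2 a ha⟩, fun T k hT hk => ?_⟩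
    obtain ⟨κ, hκ⟩ := exists_hz ρ k
    have ht : ∀ b < ρ, (b ∈ T ↔ b.toZFSet ∈ os ρ T) := fun b hb => by
      rw [ord_mem_os]
      exact ⟨fun h => ⟨hb, h⟩, fun h => h.2⟩
    obtain ⟨e, he1, he2⟩ := h3 (os ρ T) κ ((Pos.congr fun b hb => ht b hb).1 hT)
      (fun a ha hlt => by
        rw [hh a hlt, hκ a hlt]
        exact hk a ((ht a hlt).2 ha) hlt)
    refine ⟨e, fun hp => he1 ((hL e).2 hp), (Pos.congr fun b hb => ?_).1 he2⟩
    show (b.toZFSet ∈ os ρ T ∧ hz κ b ≤ _) ↔ (b ∈ T ∧ k b ≤ _)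
    rw [← ht b hb, hκ b hb]

theorem dm_LUz {en : Ordinal.{u} → ZFSet.{u}} (hen : EN en) (μ : Ordinal.{u})
    {S : Set Ordinal.{u}} (hS : DS S) (i : ℕ) : DM fun s w => LUz en μ (w i) S (s 0) := by
  have hS' : ∀ j : ℕ, DM.{u} fun _ w => w j ∈ S := fun j => DM.of_do (hS.s1 j)
  refine DM.and ?_ (DM.and ?_ ?_)
  · refine DM.allO (R := fun g s w => ∀ g', ¬ (Pos μ (w i) {a | a ∈ S ∧
      af en g a < af en g' a} ∧ Pos μ (w i) {a | a ∈ S ∧ af en g' a ≤ af en g a})) ?_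
    refine DM.allO (R := fun g' s w => ¬ (Pos μ (w (i + 1)) {a | a ∈ S ∧
      af en (w 0) a < af en g' a} ∧ Pos μ (w (i + 1)) {a | a ∈ S ∧
        af en g' a ≤ af en (w 0) a})) ?_
    refine DM.not (DM.and ?_ ?_)
    · exact DM.posc (X := fun a s w => a ∈ S ∧ af en (w 1) a < af en (w 0) a)
        ((hS' 0).and (DM.lt (df_af hen 2 0) (df_af hen 1 0))) μ (i + 2)
    · exact DM.posc (X := fun a s w => a ∈ S ∧ af en (w 0) a ≤ af en (w 1) a)
        ((hS' 0).and (DM.le (df_af hen 1 0) (df_af hen 2 0))) μ (i + 2)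
  · refine DM.exO (R := fun f s w => ∀ a, a < w i → hz (s 0) a ≤ af en f a) ?_
    refine DM.allO (R := fun a s w => a < w (i + 1) → hz (s 0) a ≤ af en (w 0) a) ?_
    exact (DM.of_do (DO.lt 0 (i + 2))).imp (DM.le (df_hz 0 0) (df_af hen 1 0))
  · refine DM.allS (R := fun t s w => ∀ κ : ZFSet.{u}, Pos μ (w i) {a | a.toZFSet ∈ t} →
      (∀ a : Ordinal.{u}, a.toZFSet ∈ t → a < w i → (a ∈ S ∧ hz κ a < hz (s 0) a)) →
        ∃ e, (¬ Pos μ (w i) {a | a ∈ S ∧ hz (s 0) a ≤ af en e a}) ∧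
          Pos μ (w i) {a | a.toZFSet ∈ t ∧ hz κ a ≤ af en e a}) ?_
    refine DM.allS (R := fun κ s w => Pos μ (w i) {a | a.toZFSet ∈ s 0} →
      (∀ a : Ordinal.{u}, a.toZFSet ∈ s 0 → a < w i → (a ∈ S ∧ hz κ a < hz (s 1) a)) →
        ∃ e, (¬ Pos μ (w i) {a | a ∈ S ∧ hz (s 1) a ≤ af en e a}) ∧
          Pos μ (w i) {a | a.toZFSet ∈ s 0 ∧ hz κ a ≤ af en e a}) ?_
    refine DM.imp (DM.posc (X := fun a s w => a.toZFSet ∈ s 1) (DM.smem 1 0) μ i)
      (DM.imp ?_ ?_)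
    · refine DM.allO (R := fun a s w => a.toZFSet ∈ s 1 → a < w i →
        (a ∈ S ∧ hz (s 0) a < hz (s 2) a)) ?_
      exact (DM.smem 1 0).imp ((DM.of_do (DO.lt 0 (i + 1))).imp
        ((hS' 0).and (DM.lt (df_hz 0 0) (df_hz 2 0))))
    · refine DM.exO (R := fun e s w => (¬ Pos μ (w i) {a | a ∈ S ∧ hz (s 2) a ≤ af en e a}) ∧
          Pos μ (w i) {a | a.toZFSet ∈ s 1 ∧ hz (s 0) a ≤ af en e a}) ?_
      refine DM.and (DM.not ?_) ?_
      · exact DM.posc (X := fun a s w => a ∈ S ∧ hz (s 2) a ≤ af en (w 0) a)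
          ((hS' 0).and (DM.le (df_hz 2 0) (df_af hen 1 0))) μ (i + 1)
      · exact DM.posc (X := fun a s w => a.toZFSet ∈ s 1 ∧ hz (s 0) a ≤ af en (w 0) a)
          ((DM.smem 1 0).and (DM.le (df_hz 0 0) (df_af hen 1 0))) μ (i + 1)

theorem X : T_CD.{u} := by
  intro en μ S hen hS Y hY i k
  have hS' : ∀ j : ℕ, DM.{u} fun _ w => w j ∈ S := fun j => DM.of_do (hS.s1 j)
  have h1 : DM.{u} fun s w => LUz en μ (w i) S (s 0) ∧
      (∀ e, (¬ Pos μ (w i) {a | a ∈ S ∧ hz (s 0) a ≤ af en e a} ↔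
        ¬ Pos μ (w i) {a | a ∈ S ∧ af en (w k) a ≤ af en e a})) ∧
      Pos μ (w i) {a | a ∈ S ∧ Y a (hz (s 0) a) w} := by
    refine (dm_LUz hen μ hS i).and (DM.and ?_ ?_)
    · refine DM.allO (R := fun e s w => (¬ Pos μ (w i) {a | a ∈ S ∧ hz (s 0) a ≤ af en e a} ↔
        ¬ Pos μ (w i) {a | a ∈ S ∧ af en (w k) a ≤ af en e a})) ?_
      refine DM.iff (DM.not ?_) (DM.not ?_)
      · exact DM.posc (X := fun a s w => a ∈ S ∧ hz (s 0) a ≤ af en (w 0) a)
          ((hS' 0).and (DM.le (df_hz 0 0) (df_af hen 1 0))) μ (i + 1)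
      · exact DM.posc (X := fun a s w => a ∈ S ∧ af en (w (k + 1)) a ≤ af en (w 0) a)
          ((hS' 0).and (DM.le (df_af hen (k + 2) 0) (df_af hen 1 0))) μ (i + 1)
    · refine DM.posc (X := fun a s w => a ∈ S ∧ Y a (hz (s 0) a) w) ((hS' 0).and ?_) μ i
      refine DM.subst (f := fun s w => hz (s 0) (w 0))
        (R := fun b s w => Y (w 0) b (fun n => w (n + 1))) (df_hz 0 0) ?_
      refine (DM.of_do (hY.ren (fun n => if n = 0 then 1 else if n = 1 then 0 else n))).congr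
        fun s w => ?_
      simp
  refine (DM.do (DM.exS (R := fun z s w => LUz en μ (w i) S z ∧
      (∀ e, (¬ Pos μ (w i) {a | a ∈ S ∧ hz z a ≤ af en e a} ↔
        ¬ Pos μ (w i) {a | a ∈ S ∧ af en (w k) a ≤ af en e a})) ∧
      Pos μ (w i) {a | a ∈ S ∧ Y a (hz z a) w}) h1)).congr fun w => ?_
  have key : ∀ (z : ZFSet.{u}) (h : Ordinal.{u} → Ordinal.{u}),
      (∀ a < w i, hz z a = h a) → ((Cl en μ (w i) S (w k) h ∧
      Pos μ (w i) {a | a ∈ S ∧ Y a (h a) w}) ↔ (LUz en μ (w i) S z ∧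
      (∀ e, (¬ Pos μ (w i) {a | a ∈ S ∧ hz z a ≤ af en e a} ↔
        ¬ Pos μ (w i) {a | a ∈ S ∧ af en (w k) a ≤ af en e a})) ∧
      Pos μ (w i) {a | a ∈ S ∧ Y a (hz z a) w})) := by
    intro z h hh
    unfold Cl
    rw [LUz_iff hh, and_assoc]
    refine and_congr Iff.rfl (and_congr (forall_congr' fun e => iff_congr ?_ Iff.rfl) ?_)
    · refine not_congr (Pos.congr fun b hb => ?_)
      show (b ∈ S ∧ h b ≤ _) ↔ (b ∈ S ∧ hz z b ≤ _)
      rw [hh b hb]
    · refine Pos.congr fun b hb => ?_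
      show (b ∈ S ∧ Y b (h b) w) ↔ (b ∈ S ∧ Y b (hz z b) w)
      rw [hh b hb]
  constructor
  · rintro ⟨h, hC⟩
    obtain ⟨z, hz'⟩ := exists_hz (w i) h
    exact ⟨z, (key z h hz').1 hC⟩
  · rintro ⟨z, hC⟩
    exact ⟨hz z, (key z (hz z) fun _ _ => rfl).2 hC⟩

end Pool.Agent.H20.HD9.CD
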