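import Pool.Agent.H7.HD.Targets9
import Pool.Agent.H48.HD.SR
import Pool.Agent.H92.HD.PC

/-!
# MP_e37c09_lc: row LX of the board `hd6_modules`: `LU` at almost all points
-/

open Ordinal Cardinal Order Set
open scoped ZFSet

universe u

namespace Pool.Agent.H20.HD9.LX

open _root_.HD

/-- club sets have measure one -/
theorem club_mem {D : Cardinal.{u}} {lam : Ordinal.{u}} {W : Ultrafilter Ordinal.{u}}
    (hW : WN D lam W) (hlim : IsSuccLimit lam) {C : Set Ordinal.{u}} (hC : Clb lam C) :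
    C ∈ W := by
  by_contra hn
  have hn' : Cᶜ ∈ W := Ultrafilter.compl_mem_iff_notMem.2 hn
  obtain ⟨g, hg⟩ : ∃ g : Ordinal.{u} → Ordinal.{u},
      g = fun ν => sInf {y | ∀ z ∈ C, z < ν → z ≤ y} := ⟨_, rfl⟩
  have hgW : {ν | g ν < ν} ∈ W := by
    filter_upwards [hW.lt, hW.gt 0 hlim.bot_lt, hn'] with ν h3 h4 h5
    have h6 : ¬ ∀ y < ν, ∃ z < ν, y < z ∧ z ∈ C := fun h => h5 (hC.cls ν h3 h4 h)
    push Not at h6
    obtain ⟨y, hy, h7⟩ := h6
    have h8 : g ν ≤ y := by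
      rw [hg]
      refine csInf_le' fun z hz hzν => ?_
      by_contra hcon2
      exact h7 z hzν (not_le.1 hcon2) hz
    exact lt_of_le_of_lt h8 hy
  obtain ⟨x, hξ, hξW⟩ := hW.wn g hgW
  obtain ⟨z, hz, hξz, hzC⟩ := hC.unb x hξ
  obtain ⟨ν, hν1, hν2⟩ := W.nonempty_of_mem (Filter.inter_mem hξW (hW.gt z hz))
  have h9 : g ν ∈ {y | ∀ z ∈ C, z < ν → z ≤ y} := by
    rw [hg]
    exact csInf_mem ⟨ν, fun z _ hz => hz.le⟩
  have h10 : z ≤ g ν := h9 z hzC hν2
  exact absurd (lt_of_lt_of_le hξz (h10.trans hν1)) (lt_irrefl _)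

theorem X (hNP : T_NP.{u}) : T_LX.{u} := by
  intro en D G K c h θ C W hen hBG hK hGK hat hW hC hLU
  have hSR : T_SR.{u} := Pool.Agent.H48.HD.SR.sr
  have hPC : T_PC.{u} := Pool.Agent.H92.HD.pc
  have hDK : D < K := hBG.dg.trans_lt hGK
  have hKc : K.ord.cof = K := hK.cof_ord
  have hDle : D ≤ K.ord.cof := by rw [hKc]; exact hDK.le
  have hK0 : ℵ₀ < K := hBG.dunc.trans hDK
  have hlim : IsSuccLimit K.ord :=
    Ordinal.one_lt_cof_iff.1 (Cardinal.one_lt_aleph0.trans (by rw [hKc]; exact hK0))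
  obtain ⟨C', hC', hC'2⟩ := hNP en D G K c hen hBG hK hGK hat
  -- cofinalities
  have key : ∀ M : Cardinal.{u}, M.IsRegular → M < D → {ν : Ordinal.{u} | M < ν.cof} ∈ W := by
    intro M hM hMD
    have h1 : Pos M.ord K.ord univ := All.vc M K.ord hM (by rw [hKc]; exact hMD.trans hDK)
    have h2 := hSR D M K.ord W hBG.dreg hBG.dunc hDle hW hM hMD univ h1
    filter_upwards [h2, hW.lim] with ν h3 h4
    exact hPC M ν univ hM h4 h3
  have hθ : {ν : Ordinal.{u} | ν.cof.ord ≠ θ} ∈ W := by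
    by_cases hM : ∃ M : Cardinal.{u}, M.IsRegular ∧ M < D ∧ M.ord = θ
    · obtain ⟨M, h1, h2, h3⟩ := hM
      filter_upwards [key M h1 h2] with ν h4
      intro h5
      rw [← h3] at h5
      have h6 := Cardinal.ord_injective h5
      have h7 : M < ν.cof := h4
      rw [h6] at h7
      exact lt_irrefl _ h7
    · filter_upwards [hW.lim, hW.cf] with ν h1 h2
      intro h3
      exact hM ⟨ν.cof, Cardinal.isRegular_cof h1, h2, h3⟩
  filter_upwards [hW.lt, hW.cf, club_mem hW hlim hC, club_mem hW hlim hC',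
    key ℵ₀ Cardinal.isRegular_aleph0 hBG.dunc, hθ] with ν h1 h2 h3 h4 h5 h6
  exact hLU ν h3 h1 h5 h6 (hC'2 ν h4 h1 h5 h2)

end Pool.Agent.H20.HD9.LX
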